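import Pool.Agent.R640.WrFG

/-!
# Finitely generated groups with uncountable chains of quasi-parabolic structures (MP_484ff1_al)

For every finitely generated group `A` with an infinite strictly decreasing sequence of subgroups
(for example every finitely generated group with an element of infinite order, such as `ℤ`) the
finitely generated group `A ≀ ℤ` has a chain of quasi-parabolic structures which is
order-isomorphic to the real line.
-/

set_option autoImplicit false

namespace Pool.Agent.Results.MP_484ff1_al.UncountableChains

open Pool.Agent.R640

/-- If the finitely generated group `A` has an infinite strictly decreasing sequence of subgroups,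
then `A ≀ ℤ` is finitely generated and its poset of quasi-parabolic structures contains an
uncountable chain, order-isomorphic to the real line. -/
theorem result (A : Type) [Group A] [Group.FG A] (H : ℕ → Subgroup A) (hH : StrictAnti H) :
    Group.FG (Wr A) ∧ ∃ f : ℝ ↪o Hqp (Wr A),
      IsChain (· ≤ ·) (Set.range f) ∧ ¬ (Set.range f).Countable := by
  obtain ⟨f⟩ := chain_embedding hH
  exact ⟨wr_fg, f, range_uncountable f⟩

/-- The theorem applies to the infinite cyclic group. -/
example : Group.FG (Wr (Multiplicative ℤ)) ∧ ∃ f : ℝ ↪o Hqp (Wr (Multiplicative ℤ)),
    IsChain (· ≤ ·) (Set.range f) ∧ ¬ (Set.range f).Countable :=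
  result (Multiplicative ℤ) twoPow twoPow_strictAnti

end Pool.Agent.Results.MP_484ff1_al.UncountableChains
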